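import Mathlib

/-!
# Betweenness-uniform graphs: every rational number above 1 is a betweenness

`G` is the complement of a disjoint union of complete bipartite graphs `K_{a_i,b_i}` (`i ∈ I`).
If `a_i b_i = θ (n - a_i - b_i)` for all `i`, where `n` is the number of vertices, then every vertex
has betweenness `(|I| - 1) θ`.  For `q = z/(2m) > 1` with `m` even take
`(m/2) z - m^2 + 1` copies of `K_{m,m}` and `m^2 - z` copies of `K_{1,m^2-1}`.
-/

namespace Pool.Agent.Results.MP_8f6c4c_co.AllRationals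

open Finset SimpleGraph
open scoped Classical

/-- The number of shortest `s`-`t` paths of `G`. -/
noncomputable def sigma {V : Type} (G : SimpleGraph V) (s t : V) : ℕ :=
  Nat.card {p : G.Path s t // p.1.length = G.dist s t}

/-- The number of shortest `s`-`t` paths of `G` which pass through `v`. -/
noncomputable def sigmaVia {V : Type} (G : SimpleGraph V) (s t v : V) : ℕ :=
  Nat.card {p : G.Path s t // p.1.length = G.dist s t ∧ v ∈ p.1.support}

/-- The betweenness of `v`: the sum of `σ_st(v)/σ_st` over the unordered pairs `{s,t}` of distinct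
vertices other than `v`, written as one half of the sum over the ordered pairs. -/
noncomputable def betweenness {V : Type} [Fintype V] (G : SimpleGraph V) (v : V) : ℝ :=
  (1 / 2) * ∑ s : V, ∑ t : V,
    if s ≠ t ∧ s ≠ v ∧ t ≠ v then (sigmaVia G s t v : ℝ) / (sigma G s t : ℝ) else 0

/-- `α` is the betweenness of a betweenness-uniform graph (a finite connected simple graph all of
whose vertices have the same betweenness). -/
def IsBUGValue (α : ℝ) : Prop :=
  ∃ (V : Type) (_ : Fintype V) (G : SimpleGraph V), G.Connected ∧ ∀ v : V, betweenness G v = α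

/-! ## Shortest paths in graphs of diameter two -/

section general

variable {V : Type} (G : SimpleGraph V)

/-- the path `s - u - t` -/
def path2 {s t : V} (hst : s ≠ t) (u : V) (h1 : G.Adj s u) (h2 : G.Adj u t) : G.Path s t :=
  ⟨Walk.cons h1 (Walk.cons h2 Walk.nil), by
    simp [Walk.cons_isPath_iff, h2.ne, h1.ne, hst]⟩

lemma dist_two {s t : V} (hst : s ≠ t) (hn : ¬ G.Adj s t) (u : V) (h1 : G.Adj s u)
    (h2 : G.Adj u t) : G.dist s t = 2 := by
  have hle : G.dist s t ≤ 2 := by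
    have := dist_le (Walk.cons h1 (Walk.cons h2 (Walk.nil : G.Walk t t)))
    simpa using this
  have hr : G.Reachable s t := ⟨Walk.cons h1 (Walk.cons h2 Walk.nil)⟩
  have h0 : 0 < G.dist s t := hr.pos_dist_of_ne hst
  have h1' : G.dist s t ≠ 1 := fun h => hn (dist_eq_one_iff_adj.mp h)
  omega

/-- shortest paths between nonadjacent vertices with a common neighbour -/
noncomputable def pathEquiv {s t : V} (hst : s ≠ t) (hd : G.dist s t = 2) :
    {p : G.Path s t // p.1.length = G.dist s t} ≃ {u : V // G.Adj s u ∧ G.Adj u t} where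
  toFun p := ⟨p.1.1.getVert 1, by
    obtain ⟨⟨p, hp⟩, hl⟩ := p
    rw [hd] at hl
    constructor
    · have := p.adj_getVert_succ (i := 0) (by simp only at hl; omega)
      simpa using this
    · have := p.adj_getVert_succ (i := 1) (by simp only at hl; omega)
      have h2 : p.getVert 2 = t := by
        simp only at hl
        rw [← hl]; simp
      simpa [h2] using this⟩
  invFun u := ⟨path2 G hst u.1 u.2.1 u.2.2, by simp [path2, hd]⟩
  left_inv p := by
    obtain ⟨⟨p, hp⟩, hl⟩ := p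
    rw [hd] at hl
    simp only at hl
    match p, hl with
    | Walk.cons h1 (Walk.cons h2 Walk.nil), _ => exact Subtype.ext (Subtype.ext rfl)
  right_inv u := by
    simp [path2]

lemma sigma_two [Fintype V] {s t : V} (hst : s ≠ t) (hd : G.dist s t = 2) :
    sigma G s t = (univ.filter fun u => G.Adj s u ∧ G.Adj u t).card := by
  rw [sigma, Nat.card_congr (pathEquiv G hst hd), Nat.card_eq_fintype_card,
    Fintype.card_subtype]

lemma sigmaVia_two {s t : V} (hst : s ≠ t) (hd : G.dist s t = 2) {v : V} (hs : s ≠ v)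
    (ht : t ≠ v) : sigmaVia G s t v = if G.Adj s v ∧ G.Adj v t then 1 else 0 := by
  have key : ∀ p : G.Path s t, p.1.length = G.dist s t → v ∈ p.1.support →
      ∃ h : G.Adj s v ∧ G.Adj v t, p = path2 G hst v h.1 h.2 := by
    rintro ⟨p, hp⟩ hl hv
    rw [hd] at hl
    simp only at hl hv
    match p, hl with
    | Walk.cons (v := w) h1 (Walk.cons h2 Walk.nil), _ =>
      have hw : v = w := by
        simp at hv
        rcases hv with h | h | h
        · exact absurd h.symm hs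
        · exact h
        · exact absurd h.symm ht
      subst hw
      exact ⟨⟨h1, h2⟩, rfl⟩
  rw [sigmaVia]
  split_ifs with h
  · rw [Nat.card_eq_one_iff_unique]
    refine ⟨⟨?_⟩, ⟨⟨path2 G hst v h.1 h.2, by simp [path2, hd], by simp [path2]⟩⟩⟩
    rintro ⟨p, hp⟩ ⟨q, hq⟩
    obtain ⟨_, h1⟩ := key p hp.1 hp.2
    obtain ⟨_, h2⟩ := key q hq.1 hq.2
    exact Subtype.ext (h1.trans h2.symm)
  · rw [Nat.card_eq_zero]
    left
    constructor
    rintro ⟨p, hp⟩
    obtain ⟨h1, _⟩ := key p hp.1 hp.2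
    exact h h1

lemma sigmaVia_adj {s t : V} (hst : G.Adj s t) {v : V} (hs : s ≠ v) (ht : t ≠ v) :
    sigmaVia G s t v = 0 := by
  rw [sigmaVia, Nat.card_eq_zero]
  left
  constructor
  rintro ⟨⟨p, hp⟩, hl, hv⟩
  rw [dist_eq_one_iff_adj.mpr hst] at hl
  simp only at hl hv
  match p, hl with
  | Walk.cons h1 Walk.nil, _ =>
    simp at hv
    rcases hv with h | h
    · exact hs h.symm
    · exact ht h.symm

end general

/-! ## Complements of disjoint unions of complete bipartite graphs -/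

section construction

variable {I : Type} (a b : I → ℕ)

/-- the vertices: the two sides of the complete bipartite graphs -/
abbrev Vert : Type := Σ i : I, (Fin (a i) ⊕ Fin (b i))

/-- the complement of the disjoint union of the `K_{a_i,b_i}` -/
def GG : SimpleGraph (Vert a b) where
  Adj s t := s ≠ t ∧ ¬ (s.1 = t.1 ∧ s.2.isLeft ≠ t.2.isLeft)
  symm := ⟨fun _ _ h => ⟨h.1.symm, fun h' => h.2 ⟨h'.1.symm, h'.2.symm⟩⟩⟩
  loopless := ⟨fun _ h => h.1 rfl⟩

variable {a b}

lemma adj_of_ne {s t : Vert a b} (h : s.1 ≠ t.1) : (GG a b).Adj s t :=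
  ⟨fun h' => h (by rw [h']), fun h' => h h'.1⟩

lemma common_iff {s t : Vert a b} (hst : s ≠ t) (hn : ¬ (GG a b).Adj s t) (u : Vert a b) :
    ((GG a b).Adj s u ∧ (GG a b).Adj u t) ↔ u.1 ≠ s.1 := by
  have h1 : s.1 = t.1 ∧ s.2.isLeft ≠ t.2.isLeft := by
    by_contra h
    exact hn ⟨hst, h⟩
  constructor
  · rintro ⟨⟨h2, h3⟩, ⟨h4, h5⟩⟩ h
    have h6 : s.2.isLeft = u.2.isLeft := by
      by_contra h7
      exact h3 ⟨h.symm, h7⟩
    exact h5 ⟨h.trans h1.1, by rw [← h6]; exact h1.2⟩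
  · intro h
    exact ⟨adj_of_ne (fun h' => h h'.symm), adj_of_ne (fun h' => h (h'.trans h1.1.symm))⟩

variable [Fintype I]

lemma card_common (i : I) :
    ((univ.filter fun u : Vert a b => u.1 ≠ i).card : ℝ)
      = (∑ j, ((a j : ℝ) + b j)) - ((a i : ℝ) + b i) := by
  have h1 : ((univ.filter fun u : Vert a b => u.1 = i).card : ℝ)
      + ((univ.filter fun u : Vert a b => ¬ u.1 = i).card : ℝ) = ∑ j, ((a j : ℝ) + b j) := by
    rw [← Nat.cast_add, Finset.card_filter_add_card_filter_not]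
    simp [Fintype.card_sigma, card_univ]
  have h2 : ((univ.filter fun u : Vert a b => u.1 = i).card : ℝ) = (a i : ℝ) + b i := by
    rw [Finset.card_filter, Fintype.sum_sigma, Finset.sum_eq_single i]
    · simp
    · intro j _ hj
      simp [hj]
    · simp
  have h3 : (univ.filter fun u : Vert a b => u.1 ≠ i) = univ.filter fun u : Vert a b => ¬ u.1 = i :=
    rfl
  rw [h3]
  linarith

lemma term_eq (hk : ∀ i : I, ∃ u : Vert a b, u.1 ≠ i) (v s t : Vert a b) :
    (if s ≠ t ∧ s ≠ v ∧ t ≠ v then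
        (sigmaVia (GG a b) s t v : ℝ) / (sigma (GG a b) s t : ℝ) else 0)
      = if s.1 = t.1 ∧ s.2.isLeft ≠ t.2.isLeft ∧ s.1 ≠ v.1 then
        1 / ((∑ j, ((a j : ℝ) + b j)) - ((a s.1 : ℝ) + b s.1)) else 0 := by
  by_cases hst : s = t
  · subst hst
    simp
  by_cases hsv : s = v
  · subst hsv
    simp
  by_cases htv : t = v
  · subst htv
    have : ¬ (s.1 = t.1 ∧ s.2.isLeft ≠ t.2.isLeft ∧ s.1 ≠ t.1) := fun h => h.2.2 h.1
    rw [if_neg this]
    simp
  rw [if_pos ⟨hst, hsv, htv⟩]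
  by_cases hadj : (GG a b).Adj s t
  · rw [sigmaVia_adj _ hadj hsv htv]
    have : ¬ (s.1 = t.1 ∧ s.2.isLeft ≠ t.2.isLeft ∧ s.1 ≠ v.1) :=
      fun h => hadj.2 ⟨h.1, h.2.1⟩
    rw [if_neg this]
    simp
  have h1 : s.1 = t.1 ∧ s.2.isLeft ≠ t.2.isLeft := by
    by_contra h
    exact hadj ⟨hst, h⟩
  obtain ⟨u, hu⟩ := hk s.1
  have hu' := (common_iff hst hadj u).mpr hu
  have hd := dist_two _ hst hadj u hu'.1 hu'.2
  rw [sigmaVia_two _ hst hd hsv htv, sigma_two _ hst hd]
  have h2 : (univ.filter fun u => (GG a b).Adj s u ∧ (GG a b).Adj u t)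
      = univ.filter fun u : Vert a b => u.1 ≠ s.1 := by
    ext w
    simp only [mem_filter, mem_univ, true_and]
    exact common_iff hst hadj w
  rw [h2, card_common]
  by_cases hv : s.1 = v.1
  · rw [if_neg, if_neg]
    · simp
    · exact fun h => h.2.2 hv
    · exact fun h => (common_iff hst hadj v).mp h hv.symm
  · rw [if_pos, if_pos]
    · simp
    · exact ⟨h1.1, h1.2, hv⟩
    · exact (common_iff hst hadj v).mpr (fun h => hv h.symm)

lemma betweenness_eq (hk : ∀ i : I, ∃ u : Vert a b, u.1 ≠ i) (v : Vert a b) :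
    betweenness (GG a b) v = ∑ i, if i ≠ v.1 then
      ((a i : ℝ) * b i) / ((∑ j, ((a j : ℝ) + b j)) - ((a i : ℝ) + b i)) else 0 := by
  have h0 : betweenness (GG a b) v = (1 / 2) * ∑ s : Vert a b, ∑ t : Vert a b,
      if s.1 = t.1 ∧ s.2.isLeft ≠ t.2.isLeft ∧ s.1 ≠ v.1 then
        1 / ((∑ j, ((a j : ℝ) + b j)) - ((a s.1 : ℝ) + b s.1)) else 0 := by
    rw [betweenness]
    congr 1
    refine sum_congr rfl fun s _ => sum_congr rfl fun t _ => ?_
    rw [← term_eq hk v s t]
    congr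
  rw [h0, Fintype.sum_sigma, mul_sum]
  refine sum_congr rfl fun i _ => ?_
  have h1 : ∀ x : Fin (a i) ⊕ Fin (b i), (∑ t : Vert a b,
      if i = t.1 ∧ x.isLeft ≠ t.2.isLeft ∧ i ≠ v.1 then
        1 / ((∑ j, ((a j : ℝ) + b j)) - ((a i : ℝ) + b i)) else 0)
      = ∑ y : Fin (a i) ⊕ Fin (b i), if x.isLeft ≠ y.isLeft ∧ i ≠ v.1 then
        1 / ((∑ j, ((a j : ℝ) + b j)) - ((a i : ℝ) + b i)) else 0 := by
    intro x
    rw [Fintype.sum_sigma, Finset.sum_eq_single i]
    · simp
    · intro j _ hj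
      apply sum_eq_zero
      intro y _
      rw [if_neg]
      exact fun h => hj h.1.symm
    · simp
  rw [Finset.sum_congr rfl fun x _ => h1 x]
  by_cases hv : i = v.1
  · simp [hv]
  · rw [if_pos hv]
    simp only [ne_eq, hv, not_false_eq_true, and_true, Fintype.sum_sum_type, Sum.isLeft_inl,
      Sum.isLeft_inr]
    simp
    ring

theorem betweenness_const {θ : ℝ} (ha : ∀ i, 0 < a i)
    (hk : ∀ i : I, ∃ j : I, j ≠ i)
    (hθ : ∀ i, (a i : ℝ) * b i = θ * ((∑ j, ((a j : ℝ) + b j)) - ((a i : ℝ) + b i)))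
    (v : Vert a b) : betweenness (GG a b) v = ((Fintype.card I : ℝ) - 1) * θ := by
  have hpos : ∀ i : I, 0 < (∑ j, ((a j : ℝ) + b j)) - ((a i : ℝ) + b i) := by
    intro i
    obtain ⟨j, hj⟩ := hk i
    rw [← Finset.add_sum_erase univ _ (mem_univ i)]
    have h1 : ((a j : ℝ) + b j) ≤ ∑ x ∈ univ.erase i, ((a x : ℝ) + b x) :=
      Finset.single_le_sum (f := fun x => (a x : ℝ) + b x) (fun x _ => by positivity)
        (mem_erase.mpr ⟨hj, mem_univ j⟩)
    have h2 : (0 : ℝ) < a j := by exact_mod_cast ha j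
    have h3 : (0 : ℝ) ≤ b j := by positivity
    linarith
  rw [betweenness_eq]
  · have h1 : ∀ i : I, (if i ≠ v.1 then
        ((a i : ℝ) * b i) / ((∑ j, ((a j : ℝ) + b j)) - ((a i : ℝ) + b i)) else 0)
        = θ - if i = v.1 then θ else 0 := by
      intro i
      by_cases hi : i = v.1
      · simp [hi]
      · rw [if_pos hi, if_neg hi, hθ i, mul_div_assoc, div_self (hpos i).ne']
        ring
    rw [Finset.sum_congr rfl fun i _ => h1 i, Finset.sum_sub_distrib]
    simp
    ring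
  · intro i
    obtain ⟨j, hj⟩ := hk i
    exact ⟨⟨j, Sum.inl ⟨0, ha j⟩⟩, hj⟩

omit [Fintype I] in
theorem GG_connected (ha : ∀ i, 0 < a i) (hk : ∀ i : I, ∃ j : I, j ≠ i) (i₀ : I) :
    (GG a b).Connected := by
  have : Nonempty (Vert a b) := ⟨⟨i₀, Sum.inl ⟨0, ha i₀⟩⟩⟩
  refine ⟨fun s t => ?_⟩
  by_cases h : s.1 = t.1
  · obtain ⟨j, hj⟩ := hk s.1
    have h1 : (GG a b).Adj s ⟨j, Sum.inl ⟨0, ha j⟩⟩ := adj_of_ne fun h' => hj h'.symm
    have h2 : (GG a b).Adj ⟨j, Sum.inl ⟨0, ha j⟩⟩ t := adj_of_ne fun h' => hj (h'.trans h.symm)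
    exact h1.reachable.trans h2.reachable
  · exact (adj_of_ne h).reachable

end construction

theorem exists_of_rat (q : ℚ) (hq : 1 < q) : IsBUGValue (q : ℝ) := by
  -- `q = r / s`
  obtain ⟨r, hr⟩ : ∃ r : ℕ, (r : ℤ) = q.num := by
    refine ⟨q.num.toNat, Int.toNat_of_nonneg ?_⟩
    exact (Rat.num_pos.mpr (by linarith)).le
  set s : ℕ := q.den with hs
  have hs0 : 0 < s := q.den_pos
  have hs1 : (0 : ℝ) < s := by exact_mod_cast hs0
  have hqr : (q : ℝ) = r / s := by
    have h1 : (q : ℚ) = (r : ℚ) / (s : ℚ) := by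
      rw [← Rat.num_div_den q, ← hr]
      simp [hs]
    rw [h1]
    push_cast
    rfl
  have hsr : s < r := by
    have h1 : (1 : ℝ) < q := by exact_mod_cast hq
    rw [hqr, lt_div_iff₀ hs1, one_mul] at h1
    exact_mod_cast h1
  obtain ⟨D, hD⟩ := Nat.exists_eq_add_of_lt hsr
  set m : ℕ := 2 * s * (r + 2) with hm
  set z : ℕ := 4 * r * (r + 2) with hz
  set x : ℕ := 4 * s * (r + 2) ^ 2 * (D + 1) + 1 with hx
  have hle : r + 1 ≤ s ^ 2 * (r + 2) := by nlinarith
  obtain ⟨y0, hy0⟩ := Nat.exists_eq_add_of_le hle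
  set y : ℕ := 4 * (r + 2) * (y0 + 1) with hy
  have hm0 : 0 < m := by positivity
  have hm4 : 4 ≤ m := by nlinarith
  obtain ⟨w, hw⟩ : ∃ w : ℕ, m ^ 2 = w + 1 := ⟨m ^ 2 - 1, by
    have : 0 < m ^ 2 := by positivity
    omega⟩
  have hx0 : 0 < x := by positivity
  have hy1 : 0 < y := by positivity
  -- real versions
  have Rm : (m : ℝ) = 2 * s * (r + 2) := by rw [hm]; push_cast; ring
  have Rz : (z : ℝ) = 4 * r * (r + 2) := by rw [hz]; push_cast; ring
  have RD : (r : ℝ) = s + D + 1 := by rw [hD]; push_cast; ring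
  have Rx : (x : ℝ) = m / 2 * z - m ^ 2 + 1 := by
    rw [Rm, Rz, hx]
    push_cast
    have : (D : ℝ) + 1 = r - s := by rw [RD]; ring
    rw [this]
    ring
  have Ry0 : ((s : ℝ) ^ 2 * (r + 2)) = r + 1 + y0 := by exact_mod_cast hy0
  have Ry : (y : ℝ) = m ^ 2 - z := by
    rw [Rm, Rz, hy]
    push_cast
    have : (y0 : ℝ) + 1 = (s : ℝ) ^ 2 * (r + 2) - r := by rw [Ry0]; ring
    rw [this]
    ring
  have Rw : (w : ℝ) = m ^ 2 - 1 := by
    have : ((m : ℝ) ^ 2) = w + 1 := by exact_mod_cast hw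
    rw [this]; ring
  have Rm4 : (4 : ℝ) ≤ m := by exact_mod_cast hm4
  have Rq : (q : ℝ) = z / (2 * m) := by
    rw [hqr, Rm, Rz]
    field_simp
    ring
  let a : Fin x ⊕ Fin y → ℕ := Sum.elim (fun _ => m) (fun _ => 1)
  let b : Fin x ⊕ Fin y → ℕ := Sum.elim (fun _ => m) (fun _ => w)
  have ha : ∀ i, 0 < a i := by
    rintro (i | i)
    · exact hm0
    · exact Nat.one_pos
  have hk : ∀ i : Fin x ⊕ Fin y, ∃ j : Fin x ⊕ Fin y, j ≠ i := by
    rintro (i | i)
    · exact ⟨Sum.inr ⟨0, hy1⟩, by simp⟩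
    · exact ⟨Sum.inl ⟨0, hx0⟩, by simp⟩
  have hn : ∑ j, ((a j : ℝ) + b j) = m ^ 4 - 2 * m ^ 3 + 2 * m := by
    rw [Fintype.sum_sum_type]
    simp only [a, b, Sum.elim_inl, Sum.elim_inr, sum_const, card_univ, Fintype.card_fin,
      nsmul_eq_mul]
    rw [Rx, Ry, Rw]
    push_cast
    ring
  have hmm : (m : ℝ) * (m - 2) ≠ 0 := by
    apply mul_ne_zero
    · linarith
    · linarith
  have hθ : ∀ i, (a i : ℝ) * b i
      = (1 / ((m : ℝ) * (m - 2))) * ((∑ j, ((a j : ℝ) + b j)) - ((a i : ℝ) + b i)) := by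
    intro i
    rw [hn]
    rcases i with i | i
    · simp only [a, b, Sum.elim_inl]
      rw [one_div, inv_mul_eq_div, eq_div_iff hmm]
      ring
    · simp only [a, b, Sum.elim_inr]
      rw [one_div, inv_mul_eq_div, eq_div_iff hmm, Rw]
      push_cast
      ring
  refine ⟨Vert a b, inferInstance, GG a b, GG_connected ha hk (Sum.inl ⟨0, hx0⟩), fun v => ?_⟩
  rw [betweenness_const ha hk hθ v]
  simp only [Fintype.card_sum, Fintype.card_fin]
  push_cast
  rw [Rx, Ry, Rq]
  have h2m : (2 * (m : ℝ)) ≠ 0 := by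
    have : (0 : ℝ) < m := by linarith
    positivity
  rw [mul_one_div, div_eq_div_iff hmm h2m]
  ring

theorem rat_of_value {α : ℝ} (h : IsBUGValue α) : ∃ q : ℚ, (q : ℝ) = α := by
  obtain ⟨V, hV, G, hc, hB⟩ := h
  obtain ⟨v⟩ := hc.nonempty
  refine ⟨(1 / 2) * ∑ s : V, ∑ t : V,
    if s ≠ t ∧ s ≠ v ∧ t ≠ v then (sigmaVia G s t v : ℚ) / (sigma G s t : ℚ) else 0, ?_⟩
  rw [← hB v, betweenness]
  push_cast
  congr 1
  refine sum_congr rfl fun s _ => sum_congr rfl fun t _ => ?_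
  split_ifs <;> simp

/-- **Determination of the set `𝒜`.**  The betweenness values greater than `1` of
betweenness-uniform graphs are exactly the rational numbers greater than `1`. -/
theorem result :
    {α : ℝ | 1 < α ∧ IsBUGValue α} = {α : ℝ | 1 < α ∧ ∃ q : ℚ, (q : ℝ) = α} := by
  ext α
  constructor
  · rintro ⟨h1, h2⟩
    exact ⟨h1, rat_of_value h2⟩
  · rintro ⟨h1, q, rfl⟩
    exact ⟨h1, exists_of_rat q (by exact_mod_cast h1)⟩

end Pool.Agent.Results.MP_8f6c4c_co.AllRationals
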